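import Pool.Agent.Hume.Formula

/-!
The theory with the column counting function symbol is interpretable in arithmetical comprehension
plus Hume's Principle: there is one relative interpretation which, in every model of the latter,
defines a model of the former (on the same objects, with a definable part of the relations of each
arity). Extensionality for relations, if it holds, is preserved.
-/

namespace Pool.Agent.Results.MP_b82597_lc.PlusInterpretable

open Pool.Agent.Hume

theorem result : ∃ I : Interp, ∀ M : Str Empty, AHP M →
    ∃ h : I.Total M, AHPplus (I.str M h) ∧ (M.Ext → (I.str M h).Ext) :=
  Pool.Agent.Hume.main

end Pool.Agent.Results.MP_b82597_lc.PlusInterpretable
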